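import Mathlib
import Pool.Agent.H53.UlC

namespace Pool.Agent.Results.MP_294a04_nt.Full

/-- `x` is badly approximable: the infimum of `q ‖q x‖` over `q ≥ 1` is positive. -/
def Bad (x : ℝ) : Prop := ∃ c : ℝ, 0 < c ∧ ∀ q : ℕ, 1 ≤ q → c ≤ (q : ℝ) * |(q : ℝ) * x - round ((q : ℝ) * x)|

/-- `D(x, y) > 0`: for some `ε > 0` and arbitrarily large `Q`, `Q ‖q x‖ ‖q y‖ ≥ ε` for all `1 ≤ q ≤ Q`. -/
def DPos (x y : ℝ) : Prop := ∃ ε : ℝ, 0 < ε ∧ ∀ N : ℕ, ∃ Q : ℕ, N ≤ Q ∧ 0 < Q ∧ ∀ q : ℕ, 0 < q → q ≤ Q →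
  ε ≤ (Q : ℝ) * (|(q : ℝ) * x - round ((q : ℝ) * x)| * |(q : ℝ) * y - round ((q : ℝ) * y)|)

theorem result : (∃ x y : ℝ, Bad x ∧ Bad y ∧ DPos x y) ∧
    dimH {v : EuclideanSpace ℝ (Fin 2) | Bad (v 0) ∧ Bad (v 1) ∧ DPos (v 0) (v 1)} = 2 := by
  have h := Pool.Agent.H53.Ul.dimBB
  refine ⟨?_, le_antisymm ((dimH_mono (Set.subset_univ _)).trans (by rw [Real.dimH_univ_eq_finrank]; simp)) ?_⟩
  · by_contra hc
    have := h.trans (dimH_mono (t := ∅) fun z hz => hc ⟨z.1, z.2, hz⟩)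
    simp at this
  have hf : LipschitzWith 1 fun v : EuclideanSpace ℝ (Fin 2) => (v 0, v 1) :=
    LipschitzWith.mk_one fun v w => max_le (PiLp.dist_apply_le v w 0) (PiLp.dist_apply_le v w 1)
  refine h.trans ((dimH_mono fun z hz => ?_).trans (hf.dimH_image_le _))
  exact ⟨!₂[z.1, z.2], hz, rfl⟩

end Pool.Agent.Results.MP_294a04_nt.Full
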